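import Pool.Agent.H9.FC.WCond
import Pool.Agent.H22.WQ.KBase

/-!
# Furtwängler's theorem over quadratic fields
-/

open NumberField IsDedekindDomain H9FC

namespace Pool.Agent.H22.WF

/-- the possible contributions of one triple with sum zero -/
theorem alg_one {Ω : Type*} [Field Ω] {a b c : Ω} (h : a + b + c = 0) (hbc : ¬ (b = 0 ∧ c = 0)) :
    ((a - b) / c = 0 ∧ (c - a) / b = 1) ∨ ((a - b) / c = -1 ∧ (c - a) / b = 0) ∨
    (∃ x : Ω, x ≠ 0 ∧ (a - b) / c = -1 - 2 * x ∧ (c - a) / b = 1 + 2 * x⁻¹ ∧ (x = -1 → a = 0)) := by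
  have ea : a = -b - c := by linear_combination h
  subst ea
  by_cases hc : c = 0
  · have hb : b ≠ 0 := fun hb => hbc ⟨hb, hc⟩
    subst hc
    left
    refine ⟨div_zero _, ?_⟩
    rw [div_eq_one_iff_eq hb]; ring
  · by_cases hb : b = 0
    · subst hb
      right; left
      refine ⟨?_, div_zero _⟩
      rw [div_eq_iff hc]; ring
    · right; right
      refine ⟨b / c, div_ne_zero hb hc, ?_, ?_, fun hx => ?_⟩
      · rw [div_eq_iff hc]
        field_simp
        ring
      · rw [div_eq_iff hb, inv_div]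
        field_simp
        ring
      · rw [div_eq_iff hc] at hx
        rw [hx]; ring

/-- the linear algebra: two triples with sum zero -/
theorem alg_furt {Ω : Type*} [Field Ω] (h2 : (2 : Ω) ≠ 0) (h3 : (3 : Ω) ≠ 0)
    {a b c a' b' c' : Ω} (h : a + b + c = 0) (h' : a' + b' + c' = 0)
    (hbc : ¬ (b = 0 ∧ c = 0)) (hbc' : ¬ (b' = 0 ∧ c' = 0))
    (r1 : (a - b) / c + (a' - b') / c' = 2) (r2 : (c - a) / b + (c' - a') / b' = -2) :
    a = 0 ∧ a' = 0 := by
  have h4 : (4 : Ω) ≠ 0 := by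
    intro h4
    have : (2 : Ω) * 2 = 0 := by rw [← h4]; norm_num
    rcases mul_eq_zero.1 this with h5 | h5 <;> exact h2 h5
  rcases alg_one h hbc with ⟨e1, e2⟩ | ⟨e1, e2⟩ | ⟨x, hx, e1, e2, e3⟩ <;>
    rcases alg_one h' hbc' with ⟨f1, f2⟩ | ⟨f1, f2⟩ | ⟨y, hy, f1, f2, f3⟩ <;>
    rw [e1, f1] at r1 <;> rw [e2, f2] at r2
  · exact absurd (by linear_combination (-1 : Ω) * r1) h2
  · exact absurd (by linear_combination (-1 : Ω) * r1) h3
  · exfalso
    -- -1 - 2 y = 2, 1 + (1 + 2 / y) = -2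
    have g1 : 2 * y = -3 := by linear_combination (-1 : Ω) * r1
    have g2 : 2 * y⁻¹ = -4 := by linear_combination r2
    have g3 : (2 * y) * (2 * y⁻¹) = 4 := by field_simp; ring
    rw [g1, g2] at g3
    -- 12 = 4
    have : (2 : Ω) * 4 = 0 := by linear_combination g3
    exact (mul_ne_zero h2 h4) this
  · exact absurd (by linear_combination (-1 : Ω) * r1) h3
  · exact absurd (by linear_combination (-1 : Ω) * r1) h4
  · exfalso
    -- -1 + (-1 - 2 y) = 2, 0 + (1 + 2 / y) = -2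
    have g1 : 2 * y = -4 := by linear_combination (-1 : Ω) * r1
    have g2 : 2 * y⁻¹ = -3 := by linear_combination r2
    have g3 : (2 * y) * (2 * y⁻¹) = 4 := by field_simp; ring
    rw [g1, g2] at g3
    have : (2 : Ω) * 4 = 0 := by linear_combination g3
    exact (mul_ne_zero h2 h4) this
  · exfalso
    have g1 : 2 * x = -3 := by linear_combination (-1 : Ω) * r1
    have g2 : 2 * x⁻¹ = -4 := by linear_combination r2
    have g3 : (2 * x) * (2 * x⁻¹) = 4 := by field_simp; ring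
    rw [g1, g2] at g3
    have : (2 : Ω) * 4 = 0 := by linear_combination g3
    exact (mul_ne_zero h2 h4) this
  · exfalso
    have g1 : 2 * x = -4 := by linear_combination (-1 : Ω) * r1
    have g2 : 2 * x⁻¹ = -3 := by linear_combination r2
    have g3 : (2 * x) * (2 * x⁻¹) = 4 := by field_simp; ring
    rw [g1, g2] at g3
    have : (2 : Ω) * 4 = 0 := by linear_combination g3
    exact (mul_ne_zero h2 h4) this
  · have g1 : x + y = -2 := by
      have : (2 : Ω) * (x + y + 2) = 0 := by linear_combination (-1 : Ω) * r1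
      linear_combination (mul_eq_zero.1 this).resolve_left h2
    have g2 : x⁻¹ + y⁻¹ = -2 := by
      have : (2 : Ω) * (x⁻¹ + y⁻¹ + 2) = 0 := by linear_combination r2
      linear_combination (mul_eq_zero.1 this).resolve_left h2
    have g3 : x + y = -2 * (x * y) := by
      have : (x⁻¹ + y⁻¹) * (x * y) = x + y := by field_simp; ring
      rw [← this, g2]
    have g4 : x * y = 1 := by
      have : (2 : Ω) * (x * y - 1) = 0 := by linear_combination g3 - g1
      linear_combination (mul_eq_zero.1 this).resolve_left h2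
    have g5 : (x + 1) ^ 2 = 0 := by
      have : y = -2 - x := by linear_combination g1
      rw [this] at g4
      linear_combination (-1 : Ω) * g4
    have g6 : x = -1 := by
      have := pow_eq_zero_iff (two_ne_zero) |>.1 g5
      linear_combination this
    have g7 : y = -1 := by linear_combination g1 - g6
    exact ⟨e3 g6, f3 g7⟩

open Pool.Agent.H22.WQ

variable {K : Type*} [Field K] [NumberField K]

/-- integral representatives which are coprime at all primes above `n` -/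
theorem exists_repr (p : ℕ) [Fact p.Prime] (n : ℕ) (hn : n ≠ 0) (a b c : K) (ha : a ≠ 0)
    (hb : b ≠ 0) (hc : c ≠ 0) (h : a ^ p + b ^ p + c ^ p = 0) :
    ∃ (a' b' c' : 𝓞 K) (k : K), k ≠ 0 ∧ a = k * (a' : K) ∧ b = k * (b' : K) ∧ c = k * (c' : K) ∧
      FSol K p a' b' c' ∧ ∀ P : Ideal (𝓞 K), P.IsPrime → (n : 𝓞 K) ∈ P →
        ¬ (a' ∈ P ∧ b' ∈ P ∧ c' ∈ P) := by
  classical
  obtain ⟨N, hN⟩ := IsLocalization.exist_integer_multiples_of_finset (nonZeroDivisors (𝓞 K))
    ({a, b, c} : Finset K)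
  obtain ⟨A, hA⟩ := hN a (by simp)
  obtain ⟨B, hB⟩ := hN b (by simp)
  obtain ⟨C, hC⟩ := hN c (by simp)
  have hN0 : ((N : 𝓞 K) : K) ≠ 0 := by
    have := nonZeroDivisors.coe_ne_zero N
    exact_mod_cast this
  have hA' : (A : K) = (N : 𝓞 K) * a := by rw [← Algebra.smul_def]; exact hA
  have hB' : (B : K) = (N : 𝓞 K) * b := by rw [← Algebra.smul_def]; exact hB
  have hC' : (C : K) = (N : 𝓞 K) * c := by rw [← Algebra.smul_def]; exact hC
  have hsol : FSol K p A B C := by
    refine ⟨?_, ?_, ?_, ?_⟩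
    · rintro rfl
      have h0 : ((0 : 𝓞 K) : K) = 0 := map_zero _
      rw [h0] at hA'
      exact mul_ne_zero hN0 ha hA'.symm
    · rintro rfl
      have h0 : ((0 : 𝓞 K) : K) = 0 := map_zero _
      rw [h0] at hB'
      exact mul_ne_zero hN0 hb hB'.symm
    · rintro rfl
      have h0 : ((0 : 𝓞 K) : K) = 0 := map_zero _
      rw [h0] at hC'
      exact mul_ne_zero hN0 hc hC'.symm
    · apply RingOfIntegers.ext
      have e1 : ((A ^ p + B ^ p + C ^ p : 𝓞 K) : K) = (A : K) ^ p + (B : K) ^ p + (C : K) ^ p := by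
        simp
      have e2 : ((0 : 𝓞 K) : K) = 0 := map_zero _
      have : (((N : 𝓞 K) : K)) ^ p * (a ^ p + b ^ p + c ^ p) = 0 := by rw [h, mul_zero]
      rw [e1, e2, hA', hB', hC', mul_pow, mul_pow, mul_pow, ← mul_add, ← mul_add, this]
  obtain ⟨a', b', c', y, m, hy, hm, ea, eb, ec, hs, hcop⟩ := exists_scale K p n hn A B C hsol
  have hy' : (y : K) ≠ 0 := by exact_mod_cast hy
  have hm' : (m : K) ≠ 0 := by exact_mod_cast hm
  have key : ∀ (x : K) (X x' : 𝓞 K), (X : K) = (N : 𝓞 K) * x → y * x' = m * X →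
      x = (y : K) / ((m : K) * (N : 𝓞 K)) * (x' : K) := by
    intro x X x' h1 h2
    have h3 : (y : K) * (x' : K) = (m : K) * (X : K) := by
      have := congrArg (fun t : 𝓞 K => (t : K)) h2
      simpa using this
    rw [div_mul_eq_mul_div, eq_div_iff (mul_ne_zero hm' hN0), h3, h1]
    ring
  exact ⟨a', b', c', (y : K) / ((m : K) * (N : 𝓞 K)), div_ne_zero hy' (mul_ne_zero hm' hN0),
    key a A a' hA' ea, key b B b' hB' eb, key c C c' hC' ec, hs, hcop⟩

/-- `Dv` in terms of coprime integral representatives -/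
theorem dv_iff (p : ℕ) [Fact p.Prime] {a b c : K} {a' b' c' : 𝓞 K} {k : K} (hk : k ≠ 0)
    (ha : a = k * (a' : K)) (hb : b = k * (b' : K)) (hc : c = k * (c' : K))
    (hs : FSol K p a' b' c') (v : HeightOneSpectrum (𝓞 K))
    (hcop : ¬ (a' ∈ v.asIdeal ∧ b' ∈ v.asIdeal ∧ c' ∈ v.asIdeal)) :
    Dv v a b c ↔ a' ∈ v.asIdeal := by
  have hk0 : 0 < v.valuation K k := (Valuation.pos_iff _).2 hk
  have h1 : ∀ x : 𝓞 K, x ∈ v.asIdeal ↔ v.valuation K (x : K) < 1 := fun x =>
    (v.valuation_lt_one_iff_mem (K := K) x).symm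
  have h2 : ∀ x : 𝓞 K, v.valuation K (x : K) ≤ 1 := fun x => v.valuation_le_one x
  obtain ⟨c1, c2, c3⟩ := cop_two hs v.asIdeal v.isPrime hcop
  unfold Dv
  rw [ha, hb, hc, map_mul, map_mul, map_mul]
  constructor
  · rintro ⟨h3, -⟩
    rw [h1]
    have h4 : v.valuation K (a' : K) < v.valuation K (b' : K) :=
      (mul_lt_mul_iff_right₀ hk0).1 h3
    exact lt_of_lt_of_le h4 (h2 b')
  · intro h3
    have hb' : v.valuation K (b' : K) = 1 :=
      le_antisymm (h2 b') (not_lt.1 fun h4 => c1 ⟨h3, (h1 b').2 h4⟩)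
    have hc' : v.valuation K (c' : K) = 1 :=
      le_antisymm (h2 c') (not_lt.1 fun h4 => c3 ⟨(h1 c').2 h4, h3⟩)
    rw [hb', hc']
    exact ⟨mul_lt_mul_of_pos_left ((h1 a').1 h3) hk0, rfl⟩

/-- Furtwängler's theorem over quadratic fields -/
theorem furt_quad (p : ℕ) [Fact p.Prime] (hp : 5 ≤ p) (hK : Module.finrank ℚ K = 2)
    (q : ℕ) [Fact q.Prime] (hqp : q ≠ p) (hq : ¬ p ^ 2 ∣ q ^ (p - 1) - 1) (a b c : K)
    (ha : a ≠ 0) (hb : b ≠ 0) (hc : c ≠ 0) (h : a ^ p + b ^ p + c ^ p = 0)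
    (hdv : ∀ v : HeightOneSpectrum (𝓞 K), (q : 𝓞 K) ∈ v.asIdeal → Dv v a b c)
    (v : HeightOneSpectrum (𝓞 K)) (hv : (p : 𝓞 K) ∈ v.asIdeal) : Dv v a b c := by
  have hpp : p.Prime := Fact.out
  have hqq : q.Prime := Fact.out
  obtain ⟨a', b', c', k, hk, ea, eb, ec, hs, hcop⟩ := exists_repr p (q * p)
    (mul_ne_zero hqq.ne_zero hpp.ne_zero) a b c ha hb hc h
  have hcp : CopAt K p a' b' c' := fun P hP hpP => hcop P hP (by
    push_cast
    exact Ideal.mul_mem_left _ _ hpP)
  have hcq : CopAt K q a' b' c' := fun P hP hqP => hcop P hP (by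
    push_cast
    exact Ideal.mul_mem_right _ _ hqP)
  rw [dv_iff p hk ea eb ec hs v (hcp _ v.isPrime hv)]
  -- all primes above `q` contain `a'`
  have hqa : ∀ P : Ideal (𝓞 K), P.IsPrime → (q : 𝓞 K) ∈ P → a' ∈ P := by
    intro P hP hqP
    have hP0 : P ≠ ⊥ := by
      rintro rfl
      rw [Ideal.mem_bot] at hqP
      exact hqq.ne_zero (by exact_mod_cast hqP)
    have := hdv ⟨P, hP, hP0⟩ hqP
    rwa [dv_iff p hk ea eb ec hs ⟨P, hP, hP0⟩ (hcq _ hP hqP)] at this
  have hd : Module.finrank ℚ K + 2 < p := by omega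
  obtain ⟨ψ, hψ⟩ := exists_redFam K p (AlgebraicClosure (ZMod p))
  haveI : CharP (AlgebraicClosure (ZMod p)) p := inferInstance
  have r1 := furt_cond K p (by omega) hd q hqp hq b' a' c' hs.swap hcp.swap hcq.swap hqa hψ
  have r2 := furt_cond K p (by omega) hd q hqp hq c' a' b' hs.rot.rot hcp.rot.rot hcq.rot.rot
    hqa hψ
  obtain ⟨i, hi⟩ := exists_redFam_ker hψ p v.asIdeal v.isPrime hv
  have hKΩ : ((Module.finrank ℚ K : ℕ) : AlgebraicClosure (ZMod p)) = 2 := by
    rw [hK]; norm_num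
  rw [hKΩ] at r1 r2
  let e : Fin 2 ≃ Fin (Module.finrank ℚ K) := finCongr hK.symm
  rw [← e.sum_comp, Fin.sum_univ_two] at r1 r2
  have h2 : (2 : AlgebraicClosure (ZMod p)) ≠ 0 := by
    intro h2
    have : ((2 : ℕ) : AlgebraicClosure (ZMod p)) = 0 := by exact_mod_cast h2
    rw [CharP.cast_eq_zero_iff _ p] at this
    have := Nat.le_of_dvd (by norm_num) this
    omega
  have h3 : (3 : AlgebraicClosure (ZMod p)) ≠ 0 := by
    intro h3
    have : ((3 : ℕ) : AlgebraicClosure (ZMod p)) = 0 := by exact_mod_cast h3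
    rw [CharP.cast_eq_zero_iff _ p] at this
    have := Nat.le_of_dvd (by norm_num) this
    omega
  have s0 := fsol_hom hs (ψ (e 0))
  have s1 := fsol_hom hs (ψ (e 1))
  have t0 := (cop_hom hs hcp (ψ (e 0))).2.1
  have t1 := (cop_hom hs hcp (ψ (e 1))).2.1
  have key := alg_furt h2 h3 s0 s1 t0 t1
    (by
      have e1 : ∀ x y z : AlgebraicClosure (ZMod p), (x - y) / z = -((y - x) / z) := by
        intro x y z; rw [← neg_div, neg_sub]
      rw [e1, e1 (ψ (e 1) a')]
      linear_combination (-1 : AlgebraicClosure (ZMod p)) * r1)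
    (by
      linear_combination r2)
  have hi' : ψ i a' = 0 := by
    obtain ⟨j, rfl⟩ := e.surjective i
    fin_cases j
    · exact key.1
    · exact key.2
  have : a' ∈ RingHom.ker (ψ i) := hi'
  rwa [hi] at this

end Pool.Agent.H22.WF
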