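import Pool.Agent.H9.FC.WCond

/-!
# The trace relation over all number fields
-/

open NumberField H9FC

namespace Pool.Agent.H22.WF

theorem trace_rel (K : Type*) [Field K] [NumberField K] (p : ℕ) [Fact p.Prime] (hp : 5 ≤ p)
    (hd : Module.finrank ℚ K + 2 < p) (q : ℕ) [Fact q.Prime] (hqp : q ≠ p)
    (hWq : ¬ p ^ 2 ∣ q ^ (p - 1) - 1) (a b c : 𝓞 K) (ha : a ≠ 0) (hb : b ≠ 0) (hc0 : c ≠ 0)
    (h : a ^ p + b ^ p + c ^ p = 0)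
    (hc : ∀ P : Ideal (𝓞 K), P.IsPrime → (p : 𝓞 K) ∈ P → c ∉ P)
    (hH : ∀ P : Ideal (𝓞 K), P.IsPrime → (q : 𝓞 K) ∈ P → ¬ (a ∈ P ∧ b ∈ P ∧ c ∈ P) ∧
      (a ∈ P ∨ b ∈ P ∨
        (¬ p ∣ 2 * (q + 1) ∧ (a ^ 2 - b ^ 2 ∈ P ∨ a ^ (q + 1) - b ^ (q + 1) ∈ P)))) :
    ∃ u v : ℤ, ¬ (p : ℤ) ∣ v ∧
      (v : ℚ) * (Algebra.trace ℚ K (((a : K) - (b : K)) / (c : K))
        - ((mm K q a : ℚ) - (mm K q b : ℚ))) = (p : ℚ) * (u : ℚ) := by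
  have hs : FSol K p a b c := ⟨ha, hb, hc0, h⟩
  have hcp : CopAt K p a b c := fun P hP hpP h3 => hc P hP hpP h3.2.2
  have hcq : CopAt K q a b c := fun P hP hqP => (hH P hP hqP).1
  obtain ⟨u, v, hv, huv⟩ := trace_of_redFam K p (a - b) c hc ((mm K q a : ℤ) - (mm K q b : ℤ))
    (fun ψ hψ => by
      have h1 := wief_fc K p (by omega) hd q hqp hWq a b c hs hcp hcq
        (fun P hP hqP => (hH P hP hqP).2) hψ
      simp only [map_sub]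
      rw [h1]
      push_cast
      rfl)
  refine ⟨u, v, hv, ?_⟩
  rw [← huv]
  push_cast
  rfl

end Pool.Agent.H22.WF
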